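import Pool.Agent.H494.DZ.Growth

/-!
# The dimension of the space spanned by odd zeta values grows at least like `(s log s)^(1/3)`

* For `s ≥ 3` the numbers `1, ζ(3), ζ(5), …, ζ(j)` (`j ≤ s` odd) span a rational vector space of dimension at least
  `2^(-16) (s log s)^(1/3)`.
* In windows: if `S ≥ 1` and `2^40 S² (b + S) ≤ s (⌊log₂ S⌋ + 1)`, then `1` and the `ζ(j)`, `j` odd, `b < j ≤ s`,
  span a rational vector space of dimension at least `S + 1`; and if `F` is a real number field of degree at most `d`,
  `V` an `F`-vector space of real numbers of dimension at most `v` and `d (v + m) ≤ S`, then there are `m` odd `j` in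
  `(b, s]` such that the `ζ(j)` are linearly independent over `F` modulo `V`.

Proof. Let `1, θ_1, …, θ_A` (`A = S - 1`) span a space containing all `ζ(j)` of the window,
`ζ(j) = z_0(j) + ∑ θ_a z_a(j)`. As in project N797 of the library, `F(t) = ∑_{k < n} ∑_{i ≤ 2h} c_{ik} / (t + k)^i`
with unknown integers `c_{ik}`, and the linear forms are `∑_t (1/β!) (F g)^(β)(t)` with `β = b, b + 2, …` and `g` an
integer-valued polynomial of small degree. New: (1) the `c_{ik}` are chosen by a pigeonhole principle such that for
all these forms the rational coefficients of all `θ_a` vanish *exactly*; these homogeneous equations (and the vanishing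
at infinity) enter the box count only through their heights, since the differences are taken in a complement of the
space where the remaining rational forms vanish; (2) a *dual* zero estimate shows that the remaining rational parts
`∑ rh_i z_0(i + β) + …` are linearly independent modulo the equations, hence one of them is not zero for the chosen
`c_{ik}`; (3) in the near zone `1 ≤ t ≤ r n` the derivatives of `F` are only required to be very small, not zero, so
that `r` may be a power of `S`; this gives the logarithm. The form is a non-zero rational number with a small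
denominator and equals the small real form: a contradiction.
-/

set_option autoImplicit false

open Module

namespace Pool.Agent.Results.MP_c2395a_nt.DimensionCubeRoot

/-- **The dimension of the space spanned by odd zeta values.** (1) Let `S ≥ 1` and
`2^40 S² (b + S) ≤ s (⌊log₂ S⌋ + 1)`. Then `1` and the numbers `ζ(j) = ∑ 1/(n+1)^j`, `j` odd, `b < j ≤ s`, span a
rational vector space of dimension at least `S + 1`; and for every real number field `F` of degree at most `d` and
every `F`-vector space `V` of real numbers of dimension at most `v` with `d (v + m) ≤ S` there are `m` odd integers `j`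
in `(b, s]` such that the classes of the `ζ(j)` in `ℝ / V` are linearly independent over `F`. (2) For `s ≥ 3` the
numbers `1` and `ζ(j)`, `j` odd, `2 < j ≤ s`, span a rational vector space of dimension at least
`2^(-16) (s log s)^(1/3)`. -/
theorem result :
    (∀ b S s : ℕ, 1 ≤ S → 2 ^ 40 * (S ^ 2 * (b + S)) ≤ s * (Nat.log 2 S + 1) →
      S + 1 ≤ finrank ℚ (Submodule.span ℚ
        ({x : ℝ | x = 1 ∨ ∃ j, b < j ∧ j ≤ s ∧ Odd j ∧ x = ∑' n : ℕ, 1 / ((n : ℝ) + 1) ^ j} : Set ℝ)) ∧
      ∀ d v m : ℕ, 1 ≤ d → d * (v + m) ≤ S →
        ∀ (F : IntermediateField ℚ ℝ) [FiniteDimensional ℚ F], finrank ℚ F ≤ d →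
        ∀ (V : Submodule F ℝ) [Module.Finite F V], finrank F V ≤ v →
        ∃ J : Finset ℕ, J.card = m ∧ (∀ j ∈ J, b < j ∧ j ≤ s ∧ Odd j) ∧
          LinearIndependent F (fun j : J => V.mkQ (∑' n : ℕ, 1 / ((n : ℝ) + 1) ^ (j : ℕ)))) ∧
    ∀ s : ℕ, 3 ≤ s →
      1 / 2 ^ 16 * ((s : ℝ) * Real.log s) ^ ((1 : ℝ) / 3) ≤ finrank ℚ (Submodule.span ℚ
        ({x : ℝ | x = 1 ∨ ∃ j, 2 < j ∧ j ≤ s ∧ Odd j ∧ x = ∑' n : ℕ, 1 / ((n : ℝ) + 1) ^ j} :
          Set ℝ)) := by
  refine ⟨fun b S s hS hs => ⟨?_, fun d v m hd hdS F _ hF V _ hV => ?_⟩, fun s hs =>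
    Pool.Agent.H494.DZ.growth s hs⟩
  · exact Pool.Agent.H494.DZ.dim_of_outside fun W _ h1 hW =>
      Pool.Agent.H494.DZ.outside hS hs W h1 hW
  · exact Pool.Agent.H494.DZ.indep_of_outside (fun W _ h1 hW =>
      Pool.Agent.H494.DZ.outside hS hs W h1 (hW.trans hdS)) F hF V hV hd

end Pool.Agent.Results.MP_c2395a_nt.DimensionCubeRoot
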