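import Pool.Agent.H494.DQ.QPoly

/-!
# Near relations between odd zeta values and arbitrary numbers at every scale: codimension `(s log s)^(1/3)`

Let `s ≥ 2^48` and let `M` be any finite set of monomials in `x_0, x_1, x_2, …` which contains `1` and the variables
`x_k` with `3 ≤ 2 k + 1 ≤ s` (for instance, together with all powers of one of them up to a given degree). Then at every
scale `X ≥ 1` the polynomials `P` with monomials in `M`, with integer coefficients of absolute value at most `X` and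
with `|P(x_0, ζ(3), ζ(5), …)| < c X ^ (-20 |M|²)` span a space of codimension at least `2^(-16) (s log s)^(1/3)` in the
space of all polynomials with monomials in `M`. Here `x_0` is any real number (for instance `π`), the `ζ(2 k + 1)` with
`2 k + 1 > s` may be replaced by any real numbers, and `c > 0` does not depend on these numbers and on `X`.

More precisely, in windows `(b, s]` with at most `K` missing zeta values: if `D + K + 1 ≤ S` and
`2^40 S² (b + S) ≤ s (⌊log₂ S⌋ + 1)`, the point `(1, ζ(J_1), …, ζ(J_p))` has a distance at least `c H ^ (-20 S)` to all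
rational subspaces of dimension `D + 1` given by vectors of height at most `H`, and the near relations between
`1, ζ(J_1), …, ζ(J_p)` and any real numbers `t_1, …, t_r` have codimension at least `D + 2` at every scale.

Proof: the quantitative form (`Pool/Agent/H494/DQ/QCore.lean`) of the theorem on the dimension
(`Pool/Agent/Results/MP_c2395a_nt/DimensionCubeRoot.lean`): a Siegel lemma which eliminates the homogeneous parts of the
linear forms exactly, a dual zero estimate and small values on a long near zone; then the elimination in one step of the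
library (`Q29.SpaceRank`).
-/

set_option autoImplicit false

open Module

namespace Pool.Agent.Results.MP_c2395a_nt.NearRelationsCubeRoot

/-- `ζ(j)` -/
noncomputable def zeta (j : ℕ) : ℝ := ∑' n : ℕ, 1 / ((n : ℝ) + 1) ^ j

/-- the value of the form `a_0 + a_1 ζ(J_1) + … + a_p ζ(J_p) + e_1 t_1 + … + e_r t_r` for `v = (a, e)` -/
noncomputable def form {p r : ℕ} (J : Fin p → ℕ) (t : Fin r → ℝ) (v : (Fin (p + 1) → ℤ) × (Fin r → ℤ)) : ℝ :=
  v.1 0 + ∑ i : Fin p, v.1 i.succ * zeta (J i) + ∑ j, (v.2 j : ℝ) * t j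

/-- the polynomials with monomials in `M`, with integer coefficients of absolute value at most `X` and with a value of
absolute value less than `δ` at `x` -/
def Near (M : Finset (ℕ →₀ ℕ)) (x : ℕ → ℝ) (X δ : ℝ) : Set (MvPolynomial ℕ ℚ) :=
  {P | P.support ⊆ M ∧ (∀ m, ∃ n : ℤ, P.coeff m = n ∧ |(n : ℝ)| ≤ X) ∧ |MvPolynomial.aeval x P| < δ}

/-- **Near relations at every scale.** (1) Windows. (2) Polynomials in `x_0, ζ(3), ζ(5), …`, for instance with
`x_0 = π` and `x_k = ζ(2 k + 1)` for all `k ≥ 1`. -/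
theorem result :
    (∀ b S s D K p : ℕ, 2 ^ 40 * (S ^ 2 * (b + S)) ≤ s * (Nat.log 2 S + 1) → D + K + 1 ≤ S →
      ∀ J : Fin p → ℕ, Set.ncard {j : ℕ | b < j ∧ j ≤ s ∧ Odd j ∧ ∀ i, J i ≠ j} ≤ K →
      D < p ∧
      (∃ c : ℝ, 0 < c ∧ ∀ (q : ℕ) (a : Fin p → ℤ) (B : Fin D → Fin p → ℤ) (θ : Fin D → ℝ) (H : ℝ),
        0 < q → (q : ℝ) ≤ H → (∀ d i, |(B d i : ℝ)| ≤ H) →
        ∃ i, c / H ^ (20 * S) ≤ |zeta (J i) - ((a i : ℝ) + ∑ d, θ d * (B d i : ℝ)) / q|) ∧
      ∀ r : ℕ, ∃ c : ℝ, 0 < c ∧ ∀ (t : Fin r → ℝ) (X : ℝ), 1 ≤ X → ∀ m : ℕ, m + D = r + p →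
        finrank ℚ (Submodule.span ℚ ((fun (v : (Fin (p + 1) → ℤ) × (Fin r → ℤ)) =>
          (((fun i => (v.1 i : ℚ)), (fun j => (v.2 j : ℚ))) : (Fin (p + 1) → ℚ) × (Fin r → ℚ))) ''
            {v | ‖v‖ ≤ X ∧ |form J t v| < c / X ^ ((20 * S + 1) * m)})) + (D + 2) ≤ p + 1 + r) ∧
    ∀ s : ℕ, 2 ^ 48 ≤ s → ∀ M : Finset (ℕ →₀ ℕ), 0 ∈ M →
      (∀ k, 1 ≤ k → 2 * k + 1 ≤ s → Finsupp.single k 1 ∈ M) →
      ∃ c : ℝ, 0 < c ∧ ∀ x : ℕ → ℝ, (∀ k, 1 ≤ k → 2 * k + 1 ≤ s → x k = zeta (2 * k + 1)) →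
        ∀ X : ℝ, 1 ≤ X →
          (finrank ℚ (Submodule.span ℚ (Near M x X (c / X ^ (20 * M.card ^ 2)))) : ℝ) +
            1 / 2 ^ 16 * ((s : ℝ) * Real.log s) ^ ((1 : ℝ) / 3) ≤ M.card := by
  refine ⟨fun b S s D K p hs hDK J hJ => ?_, fun s hs M h0 hM => ?_⟩
  · have hfin : {j : ℕ | b < j ∧ j ≤ s ∧ Odd j ∧ ∀ i, J i ≠ j}.Finite :=
      (Set.finite_Iic s).subset fun j hj => hj.2.1
    rw [Set.ncard_eq_toFinset_card _ hfin] at hJ
    obtain ⟨c, hc, h⟩ := Pool.Agent.H494.DQ.space_dist (D := D) hs hDK (fun i => zeta (J i)) hfin.toFinset hJ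
      (fun j h1 h2 h3 h4 => by
        rw [Set.Finite.mem_toFinset] at h4
        by_contra h5
        push Not at h5
        exact h4 ⟨h1, h2, h3, fun i hi => h5 i (by rw [hi]; rfl)⟩)
    refine ⟨Pool.Agent.Q29.SpaceRank.lt_of_dist _ _ _ _ hc h, ⟨c, hc, h⟩, fun r => ?_⟩
    obtain ⟨hD, c', hc', h'⟩ := Pool.Agent.Q29.SpaceRank.near_rank _ D _ c hc h r
    refine ⟨c', hc', fun t X hX m hm => ?_⟩
    have h3 := (h' t X hX).2 m hm
    have h4 : ∀ x : ℕ, x < m → x + (D + 2) ≤ p + 1 + r := fun x hx => by omega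
    exact h4 _ h3
  · obtain ⟨S, hS, hSs, hW⟩ := Pool.Agent.H494.DQ.exists_S s hs
    obtain ⟨c, hc, h⟩ := Pool.Agent.H494.DQ.near_poly hS hW M h0 hM
    refine ⟨c, hc, fun x hx X hX => ?_⟩
    have h1 : ((finrank ℚ (Submodule.span ℚ (Near M x X (c / X ^ (20 * M.card ^ 2)))) + (S + 1) : ℕ) : ℝ) ≤
        (M.card : ℝ) := by exact_mod_cast h x hx X hX
    push_cast at h1
    linarith

end Pool.Agent.Results.MP_c2395a_nt.NearRelationsCubeRoot
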