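import Pool.Agent.H475.QL.Main

/-!
# The q-analogue of the theorem of Apery

For every integer `p` with `|p| ≥ 2` (`q = 1/p`) the numbers `1`,
`ζ_q(2) = ∑ σ_1(n) q^n = ∑ n/(p^n - 1)` and `ζ_q(3) = ∑ σ_2(n) q^n = ∑ n^2/(p^n - 1)` are
linearly independent over `ℚ`. In particular `ζ_q(3)` is irrational.
-/

namespace Pool.Agent.Results.MP_c2395a_nt.QApery

open Pool.Agent.H475

/-- `∑ σ_j(n)/p^n = ∑ n^j/(p^n-1)`. -/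
theorem sigma_eq (p : ℤ) (hp : 2 ≤ |p|) (j : ℕ) (hj : j ≠ 0) :
    ∑' n : ℕ, (ArithmeticFunction.sigma j n : ℝ) / (p : ℝ) ^ n =
      ∑' n : ℕ, ((n + 1 : ℕ) : ℝ) ^ j / ((p : ℝ) ^ (n + 1) - 1) := by
  rw [← QL.P_SIG.sig p hp j, (QL.P_SIG.sm p hp j).tsum_eq_zero_add]
  simp

theorem result (p : ℤ) (hp : 2 ≤ |p|) :
    LinearIndependent ℚ ![(1 : ℝ),
      ∑' n : ℕ, (ArithmeticFunction.sigma 1 n : ℝ) / (p : ℝ) ^ n,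
      ∑' n : ℕ, (ArithmeticFunction.sigma 2 n : ℝ) / (p : ℝ) ^ n] ∧
    ∑' n : ℕ, (ArithmeticFunction.sigma 1 n : ℝ) / (p : ℝ) ^ n =
      ∑' n : ℕ, ((n + 1 : ℕ) : ℝ) / ((p : ℝ) ^ (n + 1) - 1) ∧
    ∑' n : ℕ, (ArithmeticFunction.sigma 2 n : ℝ) / (p : ℝ) ^ n =
      ∑' n : ℕ, ((n + 1 : ℕ) : ℝ) ^ 2 / ((p : ℝ) ^ (n + 1) - 1) := by
  refine ⟨QL.linearIndependent p hp, ?_, sigma_eq p hp 2 (by norm_num)⟩
  have h := sigma_eq p hp 1 (by norm_num)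
  simpa only [pow_one] using h

end Pool.Agent.Results.MP_c2395a_nt.QApery
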