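import Pool.Agent.H83.W35.Main5

/-!
# Windows of odd zeta values of ratio 3.5

For every odd `s ≥ 1` there is an odd `j` with `s + 2 ≤ j < 3.5 s` such that `ζ(j)` is irrational: one of the numbers
`ζ(s+2), ζ(s+4), …, ζ(j)`, `2 j < 7 s`. The literature (Zudilin) has this with the bound `8 s - 1`, the library with
`3.6 s` (`WindowsRatio36`).

Method. The Hankel determinants and the bounds of their denominators are those of the library project `N334/W` (linear
form `Q ↦ ∑_{t ≥ 0} (1/b!) (d/dt)^b [R(t) Q(t(t+4n))]`, `R(t) = ((2n)!)^h (2t+4n) / ∏_{k=n}^{3n} (t+k)^h`, `b = s - 1`).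
New is the archimedean part. In the library the weight `∏_{k=n}^{3n} (t+k)^(-13/5)` is dominated by the classical weight
`∏_{k=A}^{4n-A} (t+k)^(-2)` of the same total mass (`A = 7n/10`), whose Hankel determinants are known exactly. Here
`∏_{k=n}^{3n} (t+k)^(-5/2)` is dominated by a classical weight of SMALLER total mass (`A = 4n/5` in place of `3n/4`), with
the exponentially small factor `(100 n^4)^(-n/20)` (`Pool/Agent/H83/W35/DOM5.lean`); with the weight of equal mass the
argument fails for the ratio 3.5. The new parts are in `Pool/Agent/H83/W35/`: `DOM5` (domination), `ASY5` (size of the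
classical determinants), `NUM5` (numerical inequality), `AR5`, `Main5` (assembly, following the library).
-/

namespace Pool.Agent.Results.MP_c2395a_nt.WindowsRatio35

/-- **Windows of ratio 3.5.** For every odd `s ≥ 1` there is an odd integer `j` with `s + 2 ≤ j` and `2 j < 7 s` such
that `ζ(j) = ∑ 1/(n+1)^j` is irrational. -/
theorem result (s : ℕ) (hs : Odd s) :
    ∃ j : ℕ, Odd j ∧ s + 2 ≤ j ∧ 2 * j < 7 * s ∧ Irrational (∑' n : ℕ, 1 / ((n : ℝ) + 1) ^ j) :=
  Pool.Agent.H83.W35.windows5 s hs

end Pool.Agent.Results.MP_c2395a_nt.WindowsRatio35
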